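import Mathlib
import Pool.Agent.H29.SB1

namespace Pool.Agent.Results.MP_5551da_co.Upper
open Finset Pool.Agent.H29.SB1

/-- the `h`-fold signed sumset of `A` -/
def signedSumset {G : Type} [AddCommGroup G] (h : ℕ) (A : Finset G) : Set G :=
  {g | ∃ l : G → ℤ, ∑ a ∈ A, |l a| = h ∧ g = ∑ a ∈ A, l a • a}

/-- `φ_±(ℤ_n, h)`: the least size of an exact `h`-spanning set -/
noncomputable def phi (n h : ℕ) : ℕ :=
  sInf {m | ∃ A : Finset (ZMod n), A.card = m ∧ signedSumset h A = Set.univ}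

theorem all_parts :
    (∀ n : ℕ, 1 ≤ n → (∃ A : Finset (ZMod n), A.card = phi n 2 ∧ signedSumset 2 A = Set.univ) ∧
      (phi n 2 : ℝ) ≤ Real.sqrt (7 / 8 * n) + 10) ∧
    ∃ c₂ : ℝ, c₂ < 1 ∧ ∃ N : ℕ, ∀ n ≥ N, (phi n 2 : ℝ) ≤ c₂ * Real.sqrt n := by
  have main : ∀ n : ℕ, 1 ≤ n →
      (∃ A : Finset (ZMod n), A.card = phi n 2 ∧ signedSumset 2 A = Set.univ) ∧
      (phi n 2 : ℝ) ≤ Real.sqrt (7 / 8 * n) + 10 := by
    intro n hn
    haveI : NeZero n := ⟨by omega⟩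
    obtain ⟨A, h1, h2⟩ := exact_span n
    have m : A.card ∈ {m | ∃ A : Finset (ZMod n), A.card = m ∧ signedSumset 2 A = Set.univ} :=
      ⟨A, rfl, Set.eq_univ_of_forall h2⟩
    refine ⟨Nat.sInf_mem ⟨_, m⟩, le_trans ?_ h1⟩
    exact_mod_cast Nat.sInf_le m
  obtain ⟨N, hN⟩ := eventually_le
  exact ⟨main, 47 / 50, by norm_num, max N 1, fun n hn =>
    (main n (by omega)).2.trans (hN n (by omega))⟩

theorem result :
    ∀ n : ℕ, 1 ≤ n → (∃ A : Finset (ZMod n), A.card = phi n 2 ∧ signedSumset 2 A = Set.univ) ∧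
      (phi n 2 : ℝ) ≤ Real.sqrt (7 / 8 * n) + 10 :=
  all_parts.1

end Pool.Agent.Results.MP_5551da_co.Upper
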